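import Pool.Agent.H910R3.KS.Fin

/-!
# The Kolmogorov-simple part of `SAT` is polynomially inseparable from `co-SAT` iff `P ≠ NP`

Polynomial time is Mathlib's `Turing.TM2ComputableInPolyTime`; the classes `P` and `NP` (`InP`,
`InNP`) and the language `lang SAT` of the (encodings of) satisfiable formulas in conjunctive normal
form are those of `Pool.Agent.NPC`. Universal machines (`Universal`), the number of steps in which a
machine outputs a string (`Outputs`) and the classes `K[g(n), G(n)]` (`KC`) are defined in
`Pool.Agent.H910R3.KS.Defs`.

The proof. Let `S` in `P` be a separator, `B = SAT \ S` and `n = 2 ^ 2 ^ r`. A prefix search for a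
string `x` in `B` with `n ≤ |x| ≤ n²` asks whether `u` can be extended to (the code of) such a
string. These are `NP` questions, and we ask `S` instead of `SAT` about the formulas (padded to a
length of at least `n ^ (4 a + 1)`) to which they reduce. These formulas are Kolmogorov-simple, since
the `j`-th one is computed from `r` and `j` in time polynomial in `n`; so `S` answers correctly.
Hence, if there is such an `x`, the search finds one, and this one is output by the universal machine
on an input of length `r + O(1)`, where `r = log log n`; so it is in `K ∩ SAT` but not in `S`, a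
contradiction. It follows that `B` has no elements of length at least `2 ^ 2 ^ r₀`, so `SAT` is in
`P`.

Teammates proved the lemmas stated in `Pool.Agent.H910R3.KS.Stmts`.
-/

set_option autoImplicit false

namespace Pool.Agent.Results.MP_359409_lc.InseparableIff

open Pool.Agent.NPC Pool.Agent.H910R3.KS Turing

/-- Let `U` be a universal Turing machine.

* There is a set `S` in `P` with `K[log n, n ^ log n] ∩ SAT ⊆ S ⊆ SAT` if and only if `P = NP`. In
  other words, `K[log n, n ^ log n] ∩ SAT` and the complement of `SAT` are polynomially inseparable
  if and only if `P ≠ NP`.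
* The same holds for `K[g(n), G(n)]` for all `g` and `G` such that `log n = O(g(n))` and `G` grows
  faster than every polynomial. -/
theorem result (U : TM2ComputableAux Bool Bool) (hU : Universal U) :
    ((∃ S : Set (List Bool), InP S ∧
      KC U (fun n => Nat.clog 2 n) (fun n => n ^ Nat.clog 2 n) ∩ lang SAT ⊆ S ∧ S ⊆ lang SAT) ↔
      ∀ L : Set (List Bool), InNP L → InP L) ∧
    ∀ g G : ℕ → ℕ, (∃ a n₀ : ℕ, ∀ n ≥ n₀, Nat.log 2 n ≤ a * g n) →
      (∀ c : ℕ, ∃ n₀ : ℕ, ∀ n ≥ n₀, n ^ c < G n) →
      ((∃ S : Set (List Bool), InP S ∧ KC U g G ∩ lang SAT ⊆ S ∧ S ⊆ lang SAT) ↔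
        ∀ L : Set (List Bool), InNP L → InP L) :=
  ⟨final_log U hU, fun g G hg hG => final U hU g G hg hG⟩

end Pool.Agent.Results.MP_359409_lc.InseparableIff
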